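import Mathlib.SetTheory.Cardinal.Order
import Mathlib.Topology.Algebra.Module.Equiv
import Mathlib.Topology.Algebra.Ring.Real

namespace Pool.Agent.MP_0e046d_gt

open Cardinal

universe u v

/-- `C_p(X)`: the continuous real functions on `X`, as a linear subspace of `X → ℝ`; as a type it
carries the subspace topology of the product topology (pointwise convergence). -/
def Cp (X : Type u) [TopologicalSpace X] : Submodule ℝ (X → ℝ) where
  carrier := {f | Continuous f}
  add_mem' := fun hf hg => Continuous.add hf hg
  zero_mem' := (continuous_zero : Continuous (0 : X → ℝ))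
  smul_mem' := fun c _ hf => Continuous.const_smul hf c

/-- `X` and `Y` are `l`-equivalent: `C_p(X)` and `C_p(Y)` are linearly homeomorphic. -/
def LEquivalent (X : Type u) (Y : Type v) [TopologicalSpace X] [TopologicalSpace Y] : Prop :=
  Nonempty (Cp X ≃L[ℝ] Cp Y)

/-- The extent: `ω` plus the supremum of the sizes of closed discrete subsets. -/
noncomputable def extent (X : Type u) [TopologicalSpace X] : Cardinal.{u} :=
  ℵ₀ + ⨆ D : {D : Set X // IsClosed D ∧ DiscreteTopology D}, #D.1

end Pool.Agent.MP_0e046d_gt
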