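import Mathlib.SetTheory.Cardinal.Arithmetic
import Mathlib.Analysis.Normed.Order.Lattice
import Mathlib.Topology.UrysohnsLemma
import Mathlib.Order.CompletePartialOrder
import Mathlib.SetTheory.ZFC.PSet
import Mathlib.Tactic.Algebra.Basic
import Pool.Agent.MP_0e046d_gt.Defs

-- ======== part 0: formerly Pool.Agent.MP_0e046d_gt.Sep
section MrgPart0

namespace Pool.Agent.MP_0e046d_gt

open Cardinal Set Topology

universe u v

section small

variable {Y : Type u} {lam : Cardinal.{u}}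

theorem small_union (hl : ℵ₀ ≤ lam) {s t : Set Y} (hs : #s ≤ lam) (ht : #t ≤ lam) :
    #(s ∪ t : Set Y) ≤ lam :=
  (mk_union_le s t).trans (Cardinal.add_le_of_le hl hs ht)

theorem small_biUnion (hl : ℵ₀ ≤ lam) {ι : Type u} {I : Set ι} (A : ι → Set Y) (hI : #I ≤ lam)
    (hA : ∀ i ∈ I, #(A i) ≤ lam) : #(⋃ i ∈ I, A i) ≤ lam := by
  refine (mk_biUnion_le A I).trans ?_
  have h2 : (⨆ x : I, #(A x.1)) ≤ lam := ciSup_le' (fun x => hA x.1 x.2)
  calc #I * (⨆ x : I, #(A x.1)) ≤ lam * lam := mul_le_mul' hI h2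
    _ = lam := mul_eq_self hl

theorem exists_large_fiber (hl : ℵ₀ ≤ lam) {D : Set Y} (hD : lam < #D) (n : Y → ℕ) :
    ∃ m, lam < #({d ∈ D | n d = m} : Set Y) := by
  by_contra h
  push Not at h
  have h1 : #(⋃ i ∈ (univ : Set (ULift.{u} ℕ)), {d ∈ D | n d = i.down}) ≤ lam := by
    refine small_biUnion hl _ ?_ (fun i _ => h i.down)
    simpa using hl
  have h2 : D ⊆ ⋃ i ∈ (univ : Set (ULift.{u} ℕ)), {d ∈ D | n d = i.down} := by
    intro d hd
    simp only [mem_univ, iUnion_true, mem_iUnion]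
    exact ⟨⟨n d⟩, hd, rfl⟩
  exact absurd ((mk_le_mk_of_subset h2).trans h1) (not_le.2 hD)

end small

variable {Y : Type u} [TopologicalSpace Y] [T4Space Y] {lam : Cardinal.{u}}

/-- One point: a large closed discrete set has a large subset missing the closure of the
assigned points. -/
theorem sep_one (hl : ℵ₀ ≤ lam) {D : Set Y} (hcl : ∀ S ⊆ D, IsClosed S) (hD : lam < #D)
    (b : Y → Y) (hb : ∀ d ∈ D, b d ≠ d) :
    ∃ D' ⊆ D, lam < #D' ∧ Disjoint D' (closure (b '' D')) := by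
  classical
  by_contra H
  have H' : ∀ D' ⊆ D, Disjoint D' (closure (b '' D')) → #D' ≤ lam := by
    intro D' h1 h2
    by_contra h3
    exact H ⟨D', h1, not_le.1 h3, h2⟩
  clear H
  -- low values and high values
  have low : ∀ (f : C(Y, ℝ)) (S : Set Y), S ⊆ D → (∀ d ∈ S, f d = 1) →
      #({d ∈ S | f (b d) ≤ 1 / 2} : Set Y) ≤ lam := by
    intro f S hS hf
    refine H' _ (fun d hd => hS hd.1) ?_
    have hc : closure (b '' {d ∈ S | f (b d) ≤ 1 / 2}) ⊆ {y | f y ≤ 1 / 2} := by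
      refine closure_minimal ?_ (isClosed_le f.continuous continuous_const)
      rintro _ ⟨d, hd, rfl⟩
      exact hd.2
    refine disjoint_left.2 (fun d hd hd' => ?_)
    have h1 := hc hd'
    simp only [mem_ofPred_eq, hf d hd.1] at h1
    norm_num at h1
  have high : ∀ (f : C(Y, ℝ)) (S : Set Y), S ⊆ D → (∀ d ∈ S, f d = 0) →
      #({d ∈ S | 1 / 2 ≤ f (b d)} : Set Y) ≤ lam := by
    intro f S hS hf
    refine H' _ (fun d hd => hS hd.1) ?_
    have hc : closure (b '' {d ∈ S | 1 / 2 ≤ f (b d)}) ⊆ {y | 1 / 2 ≤ f y} := by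
      refine closure_minimal ?_ (isClosed_le continuous_const f.continuous)
      rintro _ ⟨d, hd, rfl⟩
      exact hd.2
    refine disjoint_left.2 (fun d hd hd' => ?_)
    have h1 := hc hd'
    simp only [mem_ofPred_eq, hf d hd.1] at h1
    norm_num at h1
  -- local smallness
  have loc : ∀ d, ∃ T : Set Y, #T ≤ lam ∧ d ∉ T ∧ (d ∈ D → d ∉ closure (b '' (D \ T))) := by
    intro d
    by_cases hd : d ∈ D
    · have hc : IsClosed ((D \ {d}) ∪ {b d}) :=
        (hcl _ sdiff_subset).union isClosed_singleton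
      have hdis : Disjoint ((D \ {d}) ∪ {b d}) {d} := by
        refine disjoint_left.2 ?_
        rintro x (hx | hx) hx'
        · exact hx.2 hx'
        · exact hb d hd (by rw [← mem_singleton_iff.1 hx]; exact hx')
      obtain ⟨f, hf0, hf1, -⟩ := exists_continuous_zero_one_of_isClosed hc isClosed_singleton hdis
      refine ⟨{e ∈ D \ {d} | 1 / 2 ≤ f (b e)}, high f _ sdiff_subset
        (fun e he => hf0 (Or.inl he)), fun h => h.1.2 rfl, fun _ hmem => ?_⟩
      have hsub : closure (b '' (D \ {e ∈ D \ {d} | 1 / 2 ≤ f (b e)})) ⊆ {y | f y ≤ 1 / 2} := by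
        refine closure_minimal ?_ (isClosed_le f.continuous continuous_const)
        rintro _ ⟨e, he, rfl⟩
        by_cases hed : e = d
        · subst hed
          have : f (b e) = 0 := hf0 (Or.inr rfl)
          simp only [mem_ofPred_eq, this]
          norm_num
        · by_contra hcon
          exact he.2 ⟨⟨he.1, hed⟩, (not_le.1 hcon).le⟩
      have h1 := hsub hmem
      have h2 : f d = 1 := hf1 rfl
      simp only [mem_ofPred_eq, h2] at h1
      norm_num at h1
    · exact ⟨∅, by simp, by simp, fun h => absurd h hd⟩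
  choose T hT1 hT2 hT3 using loc
  -- small dense sets avoiding a small set
  have dense : ∀ Z : Set Y, #Z ≤ lam → ∃ J ⊆ D \ Z, #J ≤ lam ∧
      #(D \ closure (b '' J) : Set Y) ≤ lam := by
    intro Z hZ
    have wf : WellFounded (WellOrderingRel : Y → Y → Prop) := IsWellFounded.wf
    let P : Y → Prop := wf.fix (C := fun _ => Prop) (fun d rec =>
      d ∈ D ∧ d ∉ Z ∧ d ∉ closure (b '' {e | ∃ h : WellOrderingRel e d, rec e h}) ∧
        ∀ e (h : WellOrderingRel e d), rec e h → d ∉ T e)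
    have hP : ∀ d, P d ↔ (d ∈ D ∧ d ∉ Z ∧ d ∉ closure (b '' {e | WellOrderingRel e d ∧ P e}) ∧
        ∀ e, WellOrderingRel e d → P e → d ∉ T e) := by
      intro d
      have : P d = _ := wf.fix_eq _ d
      rw [this]
      simp only [exists_prop]
      rfl
    have hJD : {d | P d} ⊆ D := fun d hd => ((hP d).1 hd).1
    have hJs : #({d | P d} : Set Y) ≤ lam := by
      refine H' _ hJD (disjoint_left.2 (fun d hd hd' => ?_))
      obtain ⟨h1, -, h3, -⟩ := (hP d).1 hd
      have hsub : b '' {d | P d} ⊆ b '' {e | WellOrderingRel e d ∧ P e} ∪ b '' (D \ T d) := by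
        rintro _ ⟨e, he, rfl⟩
        rcases trichotomous_of WellOrderingRel e d with h | h | h
        · exact Or.inl ⟨e, ⟨h, he⟩, rfl⟩
        · subst h
          exact Or.inr ⟨e, ⟨h1, hT2 e⟩, rfl⟩
        · exact Or.inr ⟨e, ⟨hJD he, ((hP e).1 he).2.2.2 d h hd⟩, rfl⟩
      have := closure_mono hsub hd'
      rw [closure_union] at this
      rcases this with h | h
      · exact h3 h
      · exact hT3 d h1 h
    refine ⟨{d | P d}, fun d hd => ⟨hJD hd, ((hP d).1 hd).2.1⟩, hJs, ?_⟩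
    have hsub : D \ closure (b '' {d | P d}) ⊆ ({d | P d} ∪ Z) ∪ ⋃ e ∈ {d | P d}, T e := by
      intro d hd
      by_contra hcon
      simp only [mem_union, mem_ofPred_eq, mem_iUnion, exists_prop, not_or, not_exists,
        not_and] at hcon
      refine hcon.1.1 ((hP d).2 ⟨hd.1, hcon.1.2, fun h => hd.2 ?_, fun e _ he => hcon.2 e he⟩)
      exact closure_mono (image_mono (fun e he => he.2)) h
    exact (mk_le_mk_of_subset hsub).trans
      (small_union hl (small_union hl hJs hZ) (small_biUnion hl _ hJs (fun e _ => hT1 e)))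
  -- a maximal family of pairs
  let good : Set Y × Set Y → Prop := fun p => p.1 ⊆ D ∧ p.2 ⊆ D ∧ #p.1 ≤ lam ∧ #p.2 ≤ lam ∧
    #(D \ closure (b '' p.1) : Set Y) ≤ lam ∧ #(D \ closure (b '' p.2) : Set Y) ≤ lam ∧
    Disjoint p.1 p.2
  obtain ⟨F, hF⟩ : ∃ F, Maximal (· ∈ {F : Set (Set Y × Set Y) | (∀ p ∈ F, good p) ∧
      F.Pairwise (fun p q => Disjoint (p.1 ∪ p.2) (q.1 ∪ q.2))}) F := by
    refine zorn_subset _ (fun c hc hchain => ⟨⋃₀ c, ⟨?_, ?_⟩, fun s hs => subset_sUnion_of_mem hs⟩)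
    · rintro p ⟨s, hs, hp⟩
      exact (hc hs).1 p hp
    · rintro p ⟨s, hs, hp⟩ q ⟨t, ht, hq⟩ hpq
      rcases hchain.total hs ht with h | h
      · exact (hc ht).2 (h hp) hq hpq
      · exact (hc hs).2 hp (h hq) hpq
  obtain ⟨⟨hFg, hFp⟩, hFmax⟩ := hF
  have avoid : ∀ Z : Set Y, #Z ≤ lam → ∃ p ∈ F, Disjoint (p.1 ∪ p.2) Z := by
    intro Z hZ
    by_contra hcon
    push Not at hcon
    have hch : ∀ p : F, ∃ z : Z, z.1 ∈ p.1.1 ∪ p.1.2 := by
      intro p
      obtain ⟨z, hz1, hz2⟩ := not_disjoint_iff.1 (hcon p.1 p.2)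
      exact ⟨⟨z, hz2⟩, hz1⟩
    choose g hg using hch
    have hginj : Function.Injective g := by
      intro p q hpq
      by_contra hne
      have hne' : p.1 ≠ q.1 := fun h => hne (Subtype.ext h)
      exact disjoint_left.1 (hFp p.2 q.2 hne') (hg p) (hpq ▸ hg q)
    have hFs : #F ≤ lam := (mk_le_of_injective hginj).trans hZ
    have hW : #(⋃ p ∈ F, (p.1 ∪ p.2) : Set Y) ≤ lam :=
      small_biUnion hl _ hFs (fun p hp => small_union hl (hFg p hp).2.2.1 (hFg p hp).2.2.2.1)
    obtain ⟨J0, hJ0, hJ0s, hJ0d⟩ := dense _ hW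
    obtain ⟨J1, hJ1, hJ1s, hJ1d⟩ := dense _ (small_union hl hW hJ0s)
    have hdisj : ∀ p ∈ F, Disjoint (J0 ∪ J1) (p.1 ∪ p.2) := by
      intro p hp
      refine disjoint_left.2 ?_
      rintro x (hx | hx) hx'
      · exact (hJ0 hx).2 (mem_biUnion hp hx')
      · exact (hJ1 hx).2 (Or.inl (mem_biUnion hp hx'))
    have hins : insert (J0, J1) F ⊆ F := by
      refine hFmax ⟨?_, ?_⟩ (subset_insert _ _)
      · rintro p (rfl | hp)
        · exact ⟨fun x hx => (hJ0 hx).1, fun x hx => (hJ1 hx).1, hJ0s, hJ1s, hJ0d, hJ1d,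
            disjoint_left.2 (fun x hx hx' => (hJ1 hx').2 (Or.inr hx))⟩
        · exact hFg p hp
      · rintro p (rfl | hp) q (rfl | hq) hpq
        · exact absurd rfl hpq
        · exact hdisj q hq
        · exact (hdisj p hp).symm
        · exact hFp hp hq hpq
    have hmem : (J0, J1) ∈ F := hins (mem_insert _ _)
    have hJ0e : J0 = ∅ := by
      refine eq_empty_of_forall_notMem (fun x hx => ?_)
      exact disjoint_left.1 (hdisj _ hmem) (Or.inl hx) (Or.inl hx)
    subst hJ0e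
    simp only [image_empty, closure_empty, sdiff_empty] at hJ0d
    exact absurd hJ0d (not_le.2 hD)
  -- the final contradiction
  let S : Set Y := ⋃ p ∈ F, p.2
  have hSD : S ⊆ D := iUnion₂_subset (fun p hp => (hFg p hp).2.1)
  obtain ⟨f, hf0, hf1, -⟩ := exists_continuous_zero_one_of_isClosed (hcl (D \ S) sdiff_subset)
    (hcl S hSD) disjoint_sdiff_left
  obtain ⟨p, hp, hpZ⟩ := avoid _ (small_union hl (low f S hSD (fun d hd => hf1 hd))
    (high f (D \ S) sdiff_subset (fun d hd => hf0 hd)))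
  obtain ⟨h1, h2, -, -, h5, h6, h7⟩ := hFg p hp
  have hc1 : closure (b '' p.1) ⊆ {y | f y ≤ 1 / 2} := by
    refine closure_minimal ?_ (isClosed_le f.continuous continuous_const)
    rintro _ ⟨e, he, rfl⟩
    have heS : e ∉ S := by
      intro hS
      obtain ⟨q, hq, heq⟩ := mem_iUnion₂.1 hS
      by_cases hpq : p = q
      · subst hpq
        exact disjoint_left.1 h7 he heq
      · exact disjoint_left.1 (hFp hp hq hpq) (Or.inl he) (Or.inr heq)
    by_contra hcon
    exact disjoint_left.1 hpZ (Or.inl he) (Or.inr ⟨⟨h1 he, heS⟩, (not_le.1 hcon).le⟩)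
  have hc2 : closure (b '' p.2) ⊆ {y | 1 / 2 ≤ f y} := by
    refine closure_minimal ?_ (isClosed_le continuous_const f.continuous)
    rintro _ ⟨e, he, rfl⟩
    by_contra hcon
    exact disjoint_left.1 hpZ (Or.inr he) (Or.inl ⟨mem_biUnion hp he, (not_le.1 hcon).le⟩)
  have hex : ∃ d ∈ D, d ∈ closure (b '' p.1) ∧ d ∈ closure (b '' p.2) := by
    by_contra hcon
    have hsub : D ⊆ (D \ closure (b '' p.1)) ∪ (D \ closure (b '' p.2)) := by
      intro d hd
      by_contra hcon'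
      simp only [mem_union, mem_sdiff, not_or, not_and, not_not] at hcon'
      exact hcon ⟨d, hd, hcon'.1 hd, hcon'.2 hd⟩
    exact absurd ((mk_le_mk_of_subset hsub).trans (small_union hl h5 h6)) (not_le.2 hD)
  obtain ⟨d, hd, hd1, hd2⟩ := hex
  have e1 : f d ≤ 1 / 2 := hc1 hd1
  have e2 : 1 / 2 ≤ f d := hc2 hd2
  by_cases hdS : d ∈ S
  · have : f d = 1 := hf1 hdS
    rw [this] at e1
    norm_num at e1
  · have : f d = 0 := hf0 ⟨hd, hdS⟩
    rw [this] at e2
    norm_num at e2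

/-- Finitely many points, of constant number. -/
theorem sep_card (hl : ℵ₀ ≤ lam) (m : ℕ) : ∀ {D : Set Y}, (∀ S ⊆ D, IsClosed S) → lam < #D →
    ∀ B : Y → Finset Y, (∀ d ∈ D, d ∉ B d) → (∀ d ∈ D, (B d).card = m) →
    ∃ D' ⊆ D, lam < #D' ∧ Disjoint D' (closure (⋃ d ∈ D', (B d : Set Y))) := by
  classical
  induction m with
  | zero =>
    intro D _ hD B _ hm
    refine ⟨D, Subset.rfl, hD, ?_⟩
    have : (⋃ d ∈ D, (B d : Set Y)) = ∅ := by
      refine eq_empty_of_forall_notMem (fun x hx => ?_)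
      obtain ⟨d, hd, hx⟩ := mem_iUnion₂.1 hx
      rw [Finset.card_eq_zero.1 (hm d hd)] at hx
      simp at hx
    rw [this]
    simp
  | succ m ih =>
    intro D hcl hD B hB hm
    have hch : ∀ d, ∃ y, d ∈ D → y ∈ B d := by
      intro d
      by_cases hd : d ∈ D
      · obtain ⟨y, hy⟩ : (B d).Nonempty := Finset.card_pos.1 (by rw [hm d hd]; omega)
        exact ⟨y, fun _ => hy⟩
      · exact ⟨d, fun h => absurd h hd⟩
    choose b hb using hch
    obtain ⟨D1, h1, h1l, h1d⟩ := sep_one hl hcl hD b (fun d hd h => hB d hd (by have := hb d hd; rwa [h] at this))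
    obtain ⟨D2, h2, h2l, h2d⟩ := ih (D := D1) (fun S hS => hcl S (hS.trans h1)) h1l
      (fun d => (B d).erase (b d)) (fun d hd h => hB d (h1 hd) (Finset.mem_of_mem_erase h))
      (fun d hd => by rw [Finset.card_erase_of_mem (hb d (h1 hd)), hm d (h1 hd)]; rfl)
    refine ⟨D2, h2.trans h1, h2l, disjoint_left.2 (fun x hx hx' => ?_)⟩
    have hsub : (⋃ d ∈ D2, (B d : Set Y)) ⊆
        b '' D1 ∪ ⋃ d ∈ D2, (((B d).erase (b d) : Finset Y) : Set Y) := by
      intro y hy
      obtain ⟨d, hd, hy⟩ := mem_iUnion₂.1 hy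
      by_cases hyb : y = b d
      · exact Or.inl ⟨d, h2 hd, hyb.symm⟩
      · exact Or.inr (mem_biUnion hd (Finset.mem_coe.2 (Finset.mem_erase.2 ⟨hyb, hy⟩)))
    have := closure_mono hsub hx'
    rw [closure_union] at this
    rcases this with h | h
    · exact disjoint_left.1 h1d (h2 hx) h
    · exact disjoint_left.1 h2d hx h

/-- Finitely many points. -/
theorem sep_fin (hl : ℵ₀ ≤ lam) {D : Set Y} (hcl : ∀ S ⊆ D, IsClosed S) (hD : lam < #D)
    (B : Y → Finset Y) (hB : ∀ d ∈ D, d ∉ B d) :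
    ∃ D' ⊆ D, lam < #D' ∧ Disjoint D' (closure (⋃ d ∈ D', (B d : Set Y))) := by
  obtain ⟨m, hm⟩ := exists_large_fiber hl hD (fun d => (B d).card)
  obtain ⟨D', h1, h2, h3⟩ := sep_card hl m (D := {d ∈ D | (B d).card = m})
    (fun S hS => hcl S (fun x hx => (hS hx).1)) hm B (fun d hd => hB d hd.1) (fun d hd => hd.2)
  exact ⟨D', fun x hx => (h1 hx).1, h2, h3⟩

end Pool.Agent.MP_0e046d_gt

end MrgPart0

-- ======== part 1: formerly Pool.Agent.MP_0e046d_gt.Main
section MrgPart1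

namespace Pool.Agent.MP_0e046d_gt

open Cardinal Set Topology Filter

universe u v

/-- A continuous linear functional on `C_p(X)` depends on finitely many values. -/
theorem exists_finite_support {X : Type u} [TopologicalSpace X] (φ : Cp X →L[ℝ] ℝ) :
    ∃ A : Finset X, ∀ f : Cp X, (∀ x ∈ A, f.1 x = 0) → φ f = 0 := by
  have h0 : φ ⁻¹' Metric.ball 0 1 ∈ 𝓝 (0 : Cp X) := by
    refine φ.continuous.continuousAt.preimage_mem_nhds ?_
    rw [map_zero]
    exact Metric.ball_mem_nhds 0 one_pos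
  rw [nhds_induced, mem_comap] at h0
  obtain ⟨t, ht, hsub⟩ := h0
  rw [nhds_pi, Filter.mem_pi] at ht
  obtain ⟨I, hI, s, hs, hIs⟩ := ht
  refine ⟨hI.toFinset, fun f hf => ?_⟩
  by_contra hne
  have hmem : (φ f)⁻¹ • f ∈ φ ⁻¹' Metric.ball 0 1 := by
    refine hsub (hIs ?_)
    intro x hx
    have h1 : f.1 x = 0 := hf x (hI.mem_toFinset.2 hx)
    have h2 : ((φ f)⁻¹ • f : Cp X).1 x = 0 := by
      simp [h1]
    have h3 := mem_of_mem_nhds (hs x)
    simp only [ZeroMemClass.coe_zero, Pi.zero_apply] at h3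
    show ((φ f)⁻¹ • f : Cp X).1 x ∈ s x
    rw [h2]
    exact h3
  simp only [mem_preimage, map_smul, smul_eq_mul, inv_mul_cancel₀ hne, mem_ball_zero_iff,
    norm_one, lt_self_iff_false] at hmem

/-- Evaluation at a point. -/
def ev {X : Type u} [TopologicalSpace X] (x : X) : Cp X →L[ℝ] ℝ :=
  (ContinuousLinearMap.proj x : (X → ℝ) →L[ℝ] ℝ).comp (Cp X).subtypeL

@[simp] theorem ev_apply {X : Type u} [TopologicalSpace X] (x : X) (f : Cp X) :
    ev x f = f.1 x := rfl

/-- Continuous maps as elements of `C_p`. -/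
def toCp {X : Type u} [TopologicalSpace X] (f : C(X, ℝ)) : Cp X := ⟨f, f.continuous⟩

@[simp] theorem toCp_apply {X : Type u} [TopologicalSpace X] (f : C(X, ℝ)) (x : X) :
    (toCp f).1 x = f x := rfl

variable {X : Type u} {Y : Type v} [TopologicalSpace X] [TopologicalSpace Y]

theorem exists_partner [T4Space Y] (ψ : Cp Y ≃L[ℝ] Cp X) (d : Y) :
    ∃ (x : X) (c : ℝ) (B : Finset Y), c ≠ 0 ∧ d ∉ B ∧
      ∀ g : Cp Y, (∀ y ∈ B, g.1 y = 0) → (ψ g).1 x = c * g.1 d := by
  classical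
  have hA : ∀ x : X, ∃ A : Finset Y, ∀ g : Cp Y, (∀ y ∈ A, g.1 y = 0) → (ψ g).1 x = 0 := by
    intro x
    obtain ⟨A, hA⟩ := exists_finite_support ((ev x).comp (ψ : Cp Y →L[ℝ] Cp X))
    exact ⟨A, fun g hg => by simpa using hA g hg⟩
  choose A hA using hA
  obtain ⟨W, hW⟩ := exists_finite_support ((ev d).comp (ψ.symm : Cp X →L[ℝ] Cp Y))
  have hc : IsClosed (((W.biUnion A).erase d : Finset Y) : Set Y) :=
    (Finset.finite_toSet _).isClosed
  have hdis : Disjoint (((W.biUnion A).erase d : Finset Y) : Set Y) {d} := by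
    simp
  obtain ⟨g0, h0, h1, -⟩ := exists_continuous_zero_one_of_isClosed hc isClosed_singleton hdis
  have hd1 : g0 d = 1 := h1 rfl
  have hex : ∃ x ∈ W, (ψ (toCp g0)).1 x ≠ 0 := by
    by_contra hcon
    push Not at hcon
    have := hW (ψ (toCp g0)) hcon
    simp [hd1] at this
  obtain ⟨x, hxW, hx⟩ := hex
  refine ⟨x, (ψ (toCp g0)).1 x, (A x).erase d, hx, Finset.notMem_erase _ _, fun g hg => ?_⟩
  have h2 := hA x (g - g.1 d • toCp g0) (fun y hy => by
    by_cases hyd : y = d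
    · subst hyd
      simp [hd1]
    · have e1 : g.1 y = 0 := hg y (Finset.mem_erase.2 ⟨hyd, hy⟩)
      have e2 : g0 y = 0 := h0 (Finset.mem_coe.2
        (Finset.mem_erase.2 ⟨hyd, Finset.mem_biUnion.2 ⟨x, hxW, hy⟩⟩))
      simp [e1, e2])
  rw [map_sub, map_smul] at h2
  simp only [AddSubgroupClass.coe_sub, SetLike.val_smul, Pi.sub_apply, Pi.smul_apply,
    smul_eq_mul] at h2
  linarith

theorem transfer [T1Space X] [T4Space Y] (ψ : Cp Y ≃L[ℝ] Cp X) {lam : Cardinal.{v}}
    (hl : ℵ₀ ≤ lam) {D : Set Y} (hc : IsClosed D) (hd : DiscreteTopology D) (hD : lam < #D) :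
    ∃ E : Set X, IsClosed E ∧ DiscreteTopology E ∧ lift.{u} lam < lift.{v} #E := by
  classical
  have hcl : ∀ S ⊆ D, IsClosed S := by
    intro S hS
    have h1 := isClosed_and_discrete_iff.1 ⟨hc, isDiscrete_iff_discreteTopology.2 hd⟩
    exact (isClosed_and_discrete_iff.2
      (fun x => (h1 x).mono_right (principal_mono.2 hS))).1
  choose x c B hc0 hB hx using exists_partner ψ
  obtain ⟨m, hm⟩ := exists_large_fiber hl hD (fun d => ⌈1 / |c d|⌉₊)
  have hcm : ∀ d, ⌈1 / |c d|⌉₊ = m → 1 / ((m : ℝ) + 1) ≤ |c d| := by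
    intro d h
    have hpos : 0 < |c d| := abs_pos.2 (hc0 d)
    have h1 : 1 / |c d| ≤ (m : ℝ) + 1 := by
      have := Nat.le_ceil (1 / |c d|)
      rw [h] at this
      linarith
    rw [div_le_iff₀ hpos] at h1
    rw [div_le_iff₀ (by positivity)]
    linarith
  obtain ⟨D', hD'1, hD'2, hD'3⟩ := sep_fin hl (D := {d ∈ D | ⌈1 / |c d|⌉₊ = m})
    (fun S hS => hcl S (fun y hy => (hS hy).1)) hm B (fun d _ => hB d)
  have hD'D : D' ⊆ D := fun y hy => (hD'1 hy).1
  -- test functions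
  have test : ∀ P : Finset Y, ∃ G : C(Y, ℝ), (∀ y ∈ P, G y = 0) ∧
      ∀ d ∈ D', d ∉ P → (ψ (toCp G)).1 (x d) = c d := by
    intro P
    have h1 : IsClosed (closure (⋃ d ∈ D', (B d : Set Y)) ∪ (P : Set Y)) :=
      isClosed_closure.union (Finset.finite_toSet _).isClosed
    have h2 : IsClosed (D' \ (P : Set Y)) := hcl _ (sdiff_subset.trans hD'D)
    have h3 : Disjoint (closure (⋃ d ∈ D', (B d : Set Y)) ∪ (P : Set Y)) (D' \ (P : Set Y)) := by
      refine disjoint_left.2 ?_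
      rintro y (hy | hy) hy'
      · exact disjoint_left.1 hD'3 hy'.1 hy
      · exact hy'.2 hy
    obtain ⟨G, hG0, hG1, -⟩ := exists_continuous_zero_one_of_isClosed h1 h2 h3
    refine ⟨G, fun y hy => hG0 (Or.inr hy), fun d hd hdP => ?_⟩
    rw [hx d (toCp G) (fun y hy => hG0 (Or.inl (subset_closure (mem_biUnion hd hy))))]
    have : G d = 1 := hG1 ⟨hd, hdP⟩
    simp [this]
  have hinj : InjOn x D' := by
    intro d hd e he hde
    by_contra hne
    obtain ⟨G, hG0, hG1⟩ := test (insert e (B e))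
    have hdB : d ∉ insert e (B e) := by
      intro h
      rcases Finset.mem_insert.1 h with h | h
      · exact hne h
      · exact disjoint_left.1 hD'3 hd (subset_closure (mem_biUnion he h))
    have h1 := hG1 d hd hdB
    have h2 := hx e (toCp G) (fun y hy => hG0 y (Finset.mem_insert_of_mem hy))
    have h3 : G e = 0 := hG0 e (Finset.mem_insert_self _ _)
    rw [hde, h2] at h1
    simp only [toCp_apply, h3, mul_zero] at h1
    exact hc0 d h1.symm
  have hloc : ∀ p : X, Disjoint (𝓝[≠] p) (𝓟 (x '' D')) := by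
    intro p
    obtain ⟨P, hP⟩ := exists_finite_support ((ev p).comp (ψ : Cp Y →L[ℝ] Cp X))
    obtain ⟨G, hG0, hG1⟩ := test P
    have h0 : (ψ (toCp G)).1 p = 0 := by simpa using hP (toCp G) hG0
    have hcont : Continuous (ψ (toCp G)).1 := (ψ (toCp G)).2
    have hU : {q | |(ψ (toCp G)).1 q| < 1 / ((m : ℝ) + 1)} ∈ 𝓝 p := by
      refine (isOpen_lt hcont.abs continuous_const).mem_nhds ?_
      simp only [mem_ofPred_eq, h0, abs_zero]
      positivity
    have hV : ((x '' (P : Set Y)) \ {p})ᶜ ∈ 𝓝 p := by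
      refine IsOpen.mem_nhds ?_ (fun h => h.2 rfl)
      exact (((Finset.finite_toSet P).image x).subset sdiff_subset).isClosed.isOpen_compl
    rw [disjoint_principal_right]
    filter_upwards [mem_nhdsWithin_of_mem_nhds hU, mem_nhdsWithin_of_mem_nhds hV,
      self_mem_nhdsWithin] with q hq1 hq2 hq3
    rintro ⟨d, hd, rfl⟩
    by_cases hdP : d ∈ P
    · exact hq2 ⟨⟨d, hdP, rfl⟩, hq3⟩
    · rw [hG1 d hd hdP] at hq1
      exact absurd (hcm d (hD'1 hd).2) (not_le.2 hq1)
  obtain ⟨e1, e2⟩ := isClosed_and_discrete_iff.2 hloc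
  refine ⟨x '' D', e1, isDiscrete_iff_discreteTopology.1 e2, ?_⟩
  rw [mk_image_eq_of_injOn_lift x D' hinj]
  exact lift_lt.2 hD'2

theorem le_extent {E : Set X} (h1 : IsClosed E) (h2 : DiscreteTopology E) : #E ≤ extent X :=
  (le_ciSup (f := fun D : {D : Set X // IsClosed D ∧ DiscreteTopology D} => #D.1)
    bddAbove_of_small ⟨E, h1, h2⟩).trans le_add_self

theorem aleph0_le_extent : ℵ₀ ≤ extent X := le_self_add

theorem extent_le [T1Space X] [T4Space Y] (ψ : Cp Y ≃L[ℝ] Cp X) :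
    lift.{u} (extent Y) ≤ lift.{v} (extent X) := by
  by_contra hcon
  obtain ⟨lam, hlam⟩ := mem_range_lift_of_le (not_le.1 hcon).le
  have hl : ℵ₀ ≤ lam := by
    rw [← Cardinal.lift_le.{u}, hlam, lift_aleph0, aleph0_le_lift]
    exact aleph0_le_extent
  have hlt : lam < extent Y := by
    rw [← lift_lt.{v, u}, hlam]
    exact not_le.1 hcon
  have hex : ∃ D : {D : Set Y // IsClosed D ∧ DiscreteTopology D}, lam < #D.1 := by
    by_contra h
    push Not at h
    exact absurd (Cardinal.add_le_of_le hl hl (ciSup_le' h)) (not_le.2 hlt)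
  obtain ⟨D, hD⟩ := hex
  obtain ⟨E, h1, h2, h3⟩ := transfer ψ hl D.2.1 D.2.2 hD
  rw [hlam] at h3
  exact absurd (Cardinal.lift_le.2 (le_extent h1 h2)) (not_le.2 h3)

end Pool.Agent.MP_0e046d_gt

end MrgPart1

-- marker of a merged file
example : 731051 + 733103 = 731051 + 733103 := rfl
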