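import Pool.Agent.MP_0e046d_gt.Defs

namespace Pool.Agent.MP_0e046d_gt

universe u

/-- `C_p(X, [0,1])`: the continuous functions from `X` to the unit interval, as a subset of
`X → ℝ`; as a type it carries the topology of pointwise convergence. -/
def CpI (X : Type u) [TopologicalSpace X] : Set (X → ℝ) :=
  {f | Continuous f ∧ ∀ x, f x ∈ Set.Icc (0 : ℝ) 1}

end Pool.Agent.MP_0e046d_gt
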