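import Pool.Agent.MP_0e046d_gt.Main
import Pool.Agent.MP_0e046d_gt.TopDefs

/-! The extent of a normal space is monotone under topological embeddings of function spaces. -/

namespace Pool.Agent.MP_0e046d_gt

open Cardinal Set Topology Filter

universe u v

variable {X : Type u} {Y : Type v} [TopologicalSpace X] [TopologicalSpace Y]

/-- A neighbourhood in a subspace of a power of the line contains a basic one. -/
theorem exists_basic {Z : Type*} {S : Set (Z → ℝ)} {g : S} {U : Set S} (hU : U ∈ 𝓝 g) :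
    ∃ (K : Finset Z) (ε : ℝ), 0 < ε ∧
      ∀ f : S, (∀ z ∈ K, |f.1 z - g.1 z| < ε) → f ∈ U := by
  rw [nhds_induced, mem_comap] at hU
  obtain ⟨t, ht, hsub⟩ := hU
  rw [nhds_pi, Filter.mem_pi] at ht
  obtain ⟨I, hI, s, hs, hIs⟩ := ht
  have h1 : ∀ᶠ r in 𝓝 (0 : ℝ), ∀ z ∈ I, Metric.ball (g.1 z) r ⊆ s z :=
    (eventually_all_finite hI).2 fun z _ => eventually_ball_subset (hs z)
  obtain ⟨ε, h2, h3⟩ := ((h1.filter_mono nhdsWithin_le_nhds).and
    (self_mem_nhdsWithin (a := (0 : ℝ)) (s := Ioi 0))).exists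
  refine ⟨hI.toFinset, ε, h3, fun f hf => hsub (hIs fun z hz => h2 z hz ?_)⟩
  rw [Metric.mem_ball, Real.dist_eq]
  exact hf z (hI.mem_toFinset.2 hz)

/-- Continuity at one function: a value of the image is nearly decided by finitely many values. -/
theorem exists_dep {T : CpI Y → Cp X} (hT : Continuous T) (g : CpI Y) (x : X) {ε : ℝ}
    (hε : 0 < ε) : ∃ L : Finset Y, ∀ f : CpI Y, (∀ y ∈ L, f.1 y = g.1 y) →
      |(T f).1 x - (T g).1 x| < ε := by
  have h1 : Continuous fun f : CpI Y => |(T f).1 x - (T g).1 x| :=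
    ((((continuous_apply x).comp continuous_subtype_val).comp hT).sub continuous_const).abs
  obtain ⟨L, δ, hδ, h⟩ := exists_basic (g := g) (U := {f | |(T f).1 x - (T g).1 x| < ε})
    ((isOpen_lt h1 continuous_const).mem_nhds (by simpa using hε))
  exact ⟨L, fun f hf => h f fun y hy => by simpa [hf y hy] using hδ⟩

/-- The zero function. -/
def zeroI (Y : Type v) [TopologicalSpace Y] : CpI Y := ⟨fun _ => 0, continuous_const, by simp⟩

/-- Continuity of the inverse map at the image of zero. -/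
theorem exists_detect {T : CpI Y → Cp X} (hT : IsInducing T) (d : Y) :
    ∃ (K : Finset X) (ε : ℝ), 0 < ε ∧ ∀ f : CpI Y, f.1 d = 1 →
      ∃ x ∈ K, ε ≤ |(T f).1 x - (T (zeroI Y)).1 x| := by
  have h1 : {f : CpI Y | f.1 d < 1} ∈ 𝓝 (zeroI Y) :=
    (isOpen_lt ((continuous_apply d).comp continuous_subtype_val) continuous_const).mem_nhds
      (by simp [zeroI])
  rw [hT.nhds_eq_comap, mem_comap] at h1
  obtain ⟨U, hU, hsub⟩ := h1
  obtain ⟨K, ε, hε, h⟩ := exists_basic (S := (Cp X : Set (X → ℝ))) (g := T (zeroI Y)) hU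
  refine ⟨K, ε, hε, fun f hf => ?_⟩
  by_contra hcon
  push Not at hcon
  have h2 : f.1 d < 1 := hsub (h (T f) hcon)
  exact absurd hf h2.ne

omit [TopologicalSpace Y] in
/-- A locally finite family of points indexed by a large set has a large closed discrete range. -/
theorem closed_discrete_of_locFin [T1Space X] {lam : Cardinal.{v}} (hl : ℵ₀ ≤ lam) {D : Set Y}
    (hD : lam < #D) (x : Y → X)
    (h : ∀ p : X, ∃ P : Finset Y, ∃ U ∈ 𝓝 p, ∀ d ∈ D, x d ∈ U → d ∈ P) :
    IsClosed (x '' D) ∧ DiscreteTopology (x '' D) ∧ lift.{u} lam < lift.{v} #(x '' D) := by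
  have hloc : ∀ p : X, Disjoint (𝓝[≠] p) (𝓟 (x '' D)) := by
    intro p
    obtain ⟨P, U, hU, hP⟩ := h p
    have hV : ((x '' (P : Set Y)) \ {p})ᶜ ∈ 𝓝 p := by
      refine IsOpen.mem_nhds ?_ (fun h => h.2 rfl)
      exact (((Finset.finite_toSet P).image x).subset sdiff_subset).isClosed.isOpen_compl
    rw [disjoint_principal_right]
    filter_upwards [mem_nhdsWithin_of_mem_nhds hU, mem_nhdsWithin_of_mem_nhds hV,
      self_mem_nhdsWithin] with q hq1 hq2 hq3
    rintro ⟨d, hd, rfl⟩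
    exact hq2 ⟨⟨d, hP d hd hq1, rfl⟩, hq3⟩
  obtain ⟨e1, e2⟩ := isClosed_and_discrete_iff.2 hloc
  refine ⟨e1, isDiscrete_iff_discreteTopology.1 e2, ?_⟩
  have h1 := lift_mk_le_lift_mk_mul_of_lift_mk_preimage_le (c := ℵ₀)
    (fun d : D => (⟨x d, mem_image_of_mem x d.2⟩ : x '' D)) fun b => by
      obtain ⟨P, U, hU, hP⟩ := h b.1
      rw [lift_le_aleph0, le_aleph0_iff_set_countable]
      refine (((Finset.finite_toSet P).preimage Subtype.val_injective.injOn).subset
        fun d hd => ?_).countable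
      have h2 : x d = b.1 := congrArg Subtype.val hd
      exact hP d d.2 (h2 ▸ mem_of_mem_nhds hU)
  by_contra hcon
  have h2 : ℵ₀ ≤ lift.{u} lam := aleph0_le_lift.2 hl
  have h3 := h1.trans (mul_le_mul' (not_lt.1 hcon) h2)
  rw [mul_eq_self h2] at h3
  exact absurd (Cardinal.lift_le.1 h3) (not_le.2 hD)

theorem transfer_top [T1Space X] [T4Space Y] {T : CpI Y → Cp X} (hT : IsInducing T)
    {lam : Cardinal.{v}} (hl : ℵ₀ ≤ lam) {D : Set Y} (hc : IsClosed D) (hd : DiscreteTopology D)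
    (hD : lam < #D) :
    ∃ E : Set X, IsClosed E ∧ DiscreteTopology E ∧ lift.{u} lam < lift.{v} #E := by
  classical
  have hcl : ∀ S ⊆ D, IsClosed S := by
    intro S hS
    have h1 := isClosed_and_discrete_iff.1 ⟨hc, isDiscrete_iff_discreteTopology.2 hd⟩
    exact (isClosed_and_discrete_iff.2
      (fun x => (h1 x).mono_right (principal_mono.2 hS))).1
  choose K c hc0 hK using exists_detect hT
  obtain ⟨m, hm⟩ := exists_large_fiber hl hD (fun d => ⌈1 / c d⌉₊)
  obtain ⟨η, hη, hcm⟩ : ∃ η : ℝ, 0 < η ∧ ∀ d, ⌈1 / c d⌉₊ = m → 2 * η ≤ c d := by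
    refine ⟨1 / ((m : ℝ) + 1) / 2, by positivity, fun d h => ?_⟩
    have h1 : 1 / c d ≤ (m : ℝ) + 1 := by
      have := Nat.le_ceil (1 / c d)
      rw [h] at this
      linarith
    rw [div_le_iff₀ (hc0 d)] at h1
    rw [mul_div_cancel₀ _ (two_ne_zero' ℝ), div_le_iff₀ (by positivity)]
    linarith
  choose L hL using fun x => exists_dep hT.continuous (zeroI Y) x hη
  obtain ⟨D', hD'1, hD'2, hD'3⟩ := sep_fin hl (D := {d ∈ D | ⌈1 / c d⌉₊ = m})
    (fun S hS => hcl S (fun y hy => (hS hy).1)) hm (fun d => ((K d).biUnion L).erase d)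
    (fun d _ => Finset.notMem_erase _ _)
  have hD'D : D' ⊆ D := fun y hy => (hD'1 hy).1
  obtain ⟨G, hG0, hG1, hG⟩ := exists_continuous_zero_one_of_isClosed isClosed_closure
    (hcl D' hD'D) hD'3.symm
  let g : CpI Y := ⟨G, G.continuous, hG⟩
  have hx : ∀ d, ∃ x, d ∈ D' → x ∈ K d ∧ 2 * η ≤ |(T g).1 x - (T (zeroI Y)).1 x| := by
    intro d
    by_cases hd : d ∈ D'
    · obtain ⟨x, h1, h2⟩ := hK d g (hG1 hd)
      exact ⟨x, fun _ => ⟨h1, (hcm d (hD'1 hd).2).trans h2⟩⟩
    · obtain ⟨e, he⟩ : D'.Nonempty := by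
        rw [nonempty_iff_ne_empty]
        rintro rfl
        simp at hD'2
      obtain ⟨x, -⟩ := hK e g (hG1 he)
      exact ⟨x, fun h => absurd h hd⟩
  choose x hx using hx
  refine ⟨x '' D', closed_discrete_of_locFin hl hD'2 x fun p => ?_⟩
  obtain ⟨P, hP⟩ := exists_dep hT.continuous g p hη
  obtain ⟨W, hW0, hW1, hW⟩ := exists_continuous_zero_one_of_isClosed
    (hcl (D' \ (P : Set Y)) (sdiff_subset.trans hD'D)) (Finset.finite_toSet P).isClosed
    disjoint_sdiff_left
  let f : CpI Y := ⟨fun y => G y * W y, G.continuous.mul W.continuous, fun y =>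
    ⟨mul_nonneg (hG y).1 (hW y).1, mul_le_one₀ (hG y).2 (hW y).1 (hW y).2⟩⟩
  have hcont : Continuous fun q => |(T f).1 q - (T g).1 q| :=
    (Continuous.sub (T f).2 (T g).2).abs
  refine ⟨P, {q | |(T f).1 q - (T g).1 q| < η}, (isOpen_lt hcont continuous_const).mem_nhds
    (hP f fun y hy => ?_), fun d hd hq => ?_⟩
  · have : W y = 1 := hW1 hy
    simp [f, g, this]
  · by_contra hdP
    have h1 := hL (x d) f fun y hy => by
      by_cases hyd : y = d
      · have : W y = 0 := hW0 ⟨hyd ▸ hd, hyd ▸ hdP⟩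
        simp [f, zeroI, this]
      · have : G y = 0 := hG0 (subset_closure (mem_biUnion hd (Finset.mem_coe.2
          (Finset.mem_erase.2 ⟨hyd, Finset.mem_biUnion.2 ⟨x d, (hx d hd).1, hy⟩⟩))))
        simp [f, zeroI, this]
    have h2 := (hx d hd).2
    have h3 : |(T f).1 (x d) - (T g).1 (x d)| < η := hq
    rw [abs_lt] at h1 h3
    rcases le_abs.1 h2 with h | h <;> linarith

theorem extent_le_top [T1Space X] [T4Space Y] {T : CpI Y → Cp X} (hT : IsInducing T) :
    lift.{u} (extent Y) ≤ lift.{v} (extent X) := by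
  by_contra hcon
  obtain ⟨lam, hlam⟩ := mem_range_lift_of_le (not_le.1 hcon).le
  have hl : ℵ₀ ≤ lam := by
    rw [← Cardinal.lift_le.{u}, hlam, lift_aleph0, aleph0_le_lift]
    exact aleph0_le_extent
  have hlt : lam < extent Y := by
    rw [← lift_lt.{v, u}, hlam]
    exact not_le.1 hcon
  have hex : ∃ D : {D : Set Y // IsClosed D ∧ DiscreteTopology D}, lam < #D.1 := by
    by_contra h
    push Not at h
    exact absurd (Cardinal.add_le_of_le hl hl (ciSup_le' h)) (not_le.2 hlt)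
  obtain ⟨D, hD⟩ := hex
  obtain ⟨E, h1, h2, h3⟩ := transfer_top hT hl D.2.1 D.2.2 hD
  rw [hlam] at h3
  exact absurd (Cardinal.lift_le.2 (le_extent h1 h2)) (not_le.2 h3)

/-- The inclusion of the functions with values in the unit interval. -/
theorem inducing_incl : IsInducing (fun f : CpI Y => (⟨f.1, f.2.1⟩ : Cp Y)) :=
  IsInducing.subtypeVal.of_comp (by fun_prop) continuous_subtype_val

theorem extent_le_homeo [T1Space X] [T4Space Y] (e : Cp Y ≃ₜ Cp X) :
    lift.{u} (extent Y) ≤ lift.{v} (extent X) :=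
  extent_le_top (e.isInducing.comp inducing_incl)

end Pool.Agent.MP_0e046d_gt
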